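import Mathlib

set_option autoImplicit false
open Set Filter Topology MeasureTheory

namespace Pool.Agent.Results.MP_0c6837_al.NotFree

def cs {α : Type} (b : α) (u : ℕ → α) : ℕ → α := fun n => Nat.casesOn n b u
def tl {α : Type} (u : ℕ → α) : ℕ → α := fun n => u (n + 1)
@[simp] lemma cs0 {α : Type} (b : α) (u : ℕ → α) : cs b u 0 = b := rfl
@[simp] lemma cs1 {α : Type} (b : α) (u : ℕ → α) (n : ℕ) : cs b u (n + 1) = u n := rfl
@[simp] lemma cs1' {α : Type} (b : α) (u : ℕ → α) : cs b u 1 = u 0 := rfl
@[simp] lemma tl1 {α : Type} (u : ℕ → α) (n : ℕ) : tl u n = u (n + 1) := rfl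
@[simp] lemma tlcs {α : Type} (b : α) (u : ℕ → α) : tl (cs b u) = u := rfl
lemma cstl {α : Type} (u : ℕ → α) : cs (u 0) (tl u) = u := by
  funext n; cases n <;> rfl
lemma two {α : Type} (u : ℕ → α) : ∃ a b v, u = cs a (cs b v) :=
  ⟨u 0, u 1, tl (tl u), by funext n; rcases n with _ | _ | n <;> rfl⟩

abbrev Y := ℕ → Bool
def T (y : Y) : Y :=
  if y 0 = false then cs false y else if y 1 = false then cs false (cs true (tl (tl y))) else tl y
def Ti (y : Y) : Y :=
  if y 0 = true then cs true y else if y 1 = true then cs true (cs false (tl (tl y))) else tl y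
def ψ (y : Y) : Y :=
  if y 0 = true then (if y 1 = false then tl (tl y) else cs false y)
  else (if y 1 = false then cs false (cs true (tl y)) else y)

lemma TTi (y : Y) : T (Ti y) = y := by
  obtain ⟨a, b, v, rfl⟩ := two y
  cases a <;> cases b <;> simp [T, Ti]
lemma TiT (y : Y) : Ti (T y) = y := by
  obtain ⟨a, b, v, rfl⟩ := two y
  cases a <;> cases b <;> simp [T, Ti]

lemma cif {α β δ : Type} [TopologicalSpace α] [TopologicalSpace β] [TopologicalSpace δ]
    [DiscreteTopology δ] (c : α → δ) (hc : Continuous c) (P : δ → Prop) [DecidablePred P]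
    {f g : α → β} (hf : Continuous f) (hg : Continuous g) :
    Continuous (fun x => if P (c x) then f x else g x) :=
  Continuous.if (by
    have := ((isClopen_discrete {d | P d}).preimage hc).frontier_eq
    intro a ha
    exact absurd (this ▸ ha : a ∈ (∅ : Set α)) id) hf hg
lemma ccs {α β : Type} [TopologicalSpace α] [TopologicalSpace β] {b : β → α} {u : β → ℕ → α}
    (hb : Continuous b) (hu : Continuous u) : Continuous fun x => cs (b x) (u x) :=
  continuous_pi fun n => by
    cases n
    · exact hb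
    · exact (continuous_apply _).comp hu
lemma ctl {α : Type} [TopologicalSpace α] : Continuous (tl : (ℕ → α) → ℕ → α) :=
  continuous_pi fun _ => continuous_apply _
lemma cT : Continuous T :=
  cif _ (continuous_apply 0) (· = false) (ccs continuous_const continuous_id)
    (cif _ (continuous_apply 1) (· = false)
      (ccs continuous_const (ccs continuous_const (ctl.comp ctl))) ctl)
lemma cTi : Continuous Ti :=
  cif _ (continuous_apply 0) (· = true) (ccs continuous_const continuous_id)
    (cif _ (continuous_apply 1) (· = true)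
      (ccs continuous_const (ccs continuous_const (ctl.comp ctl))) ctl)
lemma cψ : Continuous ψ :=
  cif _ (continuous_apply 0) (· = true)
    (cif _ (continuous_apply 1) (· = false) (ctl.comp ctl) (ccs continuous_const continuous_id))
    (cif _ (continuous_apply 1) (· = false)
      (ccs continuous_const (ccs continuous_const ctl)) continuous_id)

variable {n : ℕ}
abbrev L (n : ℕ) := Fin (n + 2) × Bool
abbrev E (n : ℕ) := ℕ → L n × Y
def iv (l : L n) : L n := (l.1, !l.2)
@[simp] lemma iviv (l : L n) : iv (iv l) = l := by simp [iv]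
@[simp] lemma iv1 (l : L n) : (iv l).1 = l.1 := rfl
lemma ivne (l : L n) : iv l ≠ l := by
  intro h; have := congrArg Prod.snd h; simp [iv] at this
def φ (l : L n) (y : Y) : Y :=
  if l.1 = 0 then (if l.2 = true then T y else Ti y) else if l.1 = 1 then ψ y else y
lemma cφ (l : L n) : Continuous (φ l) := by
  unfold φ
  split_ifs
  exacts [cT, cTi, cψ, continuous_id]
def ok (i : Fin (n + 2)) (d : L n × Bool × Bool) : Prop :=
  i = 1 → (d.1.1 = 1 ∨ ¬ (d.2.1 = false ∧ d.2.2 = true))
instance (i : Fin (n + 2)) : DecidablePred (ok i) := fun _ => by unfold ok; infer_instance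
def dd (p : L n × Y) : L n × Bool × Bool := (p.1, p.2 0, p.2 1)
lemma cdd : Continuous (dd : L n × Y → _) := by unfold dd; fun_prop
def mv (l : L n) (q : E n) : E n :=
  if (q 0).1 = l then tl q else if ok l.1 (dd (q 0)) then cs (iv l, φ l (q 0).2) q else q
lemma cmv (l : L n) : Continuous (mv l) :=
  cif (fun q : E n => (q 0).1) (by fun_prop) (· = l) ctl
    (cif (fun q : E n => dd (q 0)) (cdd.comp (continuous_apply 0)) (ok l.1)
      (ccs (continuous_const.prodMk ((cφ l).comp (by fun_prop))) continuous_id) continuous_id)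
def S (n : ℕ) : Set (E n) := {q | ∀ k, (q (k + 1)).1 ≠ iv (q k).1 ∧
  (q k).2 = φ (iv (q k).1) (q (k + 1)).2 ∧ ok (q k).1.1 (dd (q (k + 1)))}
lemma cS : IsClosed (S n) := by
  simp only [S, setOf_forall]
  refine isClosed_iInter fun k => ?_
  have h1 : IsClosed {q : E n | (q (k + 1)).1 ≠ iv (q k).1 ∧ ok (q k).1.1 (dd (q (k + 1)))} :=
    ((isClopen_discrete {d : L n × (L n × Bool × Bool) | d.2.1 ≠ iv d.1 ∧ ok d.1.1 d.2}).preimage
      (f := fun q : E n => ((q k).1, dd (q (k + 1))))
      (Continuous.prodMk (by fun_prop) (cdd.comp (continuous_apply _)))).1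
  have h2 : IsClosed {q : E n | (q k).2 = φ (iv (q k).1) (q (k + 1)).2} := by
    refine isClosed_eq (by fun_prop) ?_
    have : Continuous fun p : L n × Y => φ (iv p.1) p.2 :=
      continuous_prod_of_discrete_left.2 fun l => cφ (iv l)
    exact this.comp (f := fun q : E n => ((q k).1, (q (k + 1)).2)) (by fun_prop)
  have := h1.inter h2
  refine (congrArg IsClosed ?_).mp this
  ext q; simp only [mem_inter_iff, mem_setOf_eq]; tauto
lemma mvS (l : L n) {q : E n} (h : q ∈ S n) : mv l q ∈ S n := by
  unfold mv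
  split_ifs with h1 h2
  · exact fun k => h (k + 1)
  · intro k
    cases k
    · exact ⟨by simpa using h1, by simp, h2⟩
    · exact h _
  · exact h
lemma mvmv (l : L n) {q : E n} (h : q ∈ S n) : mv (iv l) (mv l q) = q := by
  by_cases h1 : (q 0).1 = l
  · obtain ⟨a, b, c⟩ := h 0
    rw [h1] at a b c
    have e : mv l q = tl q := by simp [mv, h1]
    have e2 : (l, φ (iv l) (q 1).2) = q 0 := Prod.ext h1.symm b.symm
    rw [e, mv, if_neg (by simpa using a), if_pos (by simpa using c), iviv]
    simp only [tl1, zero_add, e2, cstl]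
  · by_cases h2 : ok l.1 (dd (q 0))
    · simp [mv, h1, h2]
    · have h3 : (q 0).1 ≠ iv l := by
        intro h3
        apply h2
        intro h4
        left
        simp [dd, h3, h4]
      simp [mv, h1, h2, h3]

abbrev t : L n := (0, true)
abbrev g : L n := (1, true)
lemma away {l : L n} {q : E n} (h : (q 0).1 ≠ l) (h2 : ok l.1 (dd (q 0))) :
    mv l q = cs (iv l, φ l (q 0).2) q := by simp [mv, h, h2]
lemma ok0 {i : Fin (n + 2)} (h : i ≠ 1) (d : L n × Bool × Bool) : ok i d := fun e => absurd e h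
lemma n01 : (0 : Fin (n + 2)) ≠ 1 := Fin.zero_ne_one
lemma mvt {q : E n} (h : q ∈ S n) (b : Bool) : (mv (0, b) q 0).2 = φ (n := n) (0, b) (q 0).2 := by
  by_cases h1 : (q 0).1 = (0, b)
  · have := (h 0).2.1
    rw [h1] at this
    rw [this]
    cases b <;> simp [mv, h1, φ, iv, TTi, TiT]
  · rw [away h1 (ok0 n01 _)]; rfl
lemma itS {q : E n} (h : q ∈ S n) (j : ℕ) :
    (mv t)^[j] q ∈ S n ∧ ((mv t)^[j] q 0).2 = T^[j] (q 0).2 := by
  induction j with
  | zero => exact ⟨h, rfl⟩
  | succ j ih =>
    rw [Function.iterate_succ_apply', Function.iterate_succ_apply']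
    exact ⟨mvS _ ih.1, by rw [mvt ih.1, ih.2]; simp [φ]⟩
lemma evB (q : E n) : ∀ᶠ j in atTop, ((mv t)^[j] q 0).1.1 = 0 := by
  by_cases h : ∀ j, ((mv t)^[j] q 0).1 = t
  · exact Eventually.of_forall fun j => by rw [h j]
  · push Not at h
    obtain ⟨j, hj⟩ := h
    have : ∀ i, j ≤ i → ((mv t)^[i] q 0).1 ≠ t := by
      intro i hi
      induction i, hi using Nat.le_induction with
      | base => exact hj
      | succ i _ ih => rw [Function.iterate_succ_apply', away ih (ok0 n01 _)]; exact ivne _
    refine eventually_atTop.2 ⟨j + 1, fun i hi => ?_⟩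
    obtain ⟨i, rfl⟩ : ∃ k, i = k + 1 := ⟨i - 1, by omega⟩
    rw [Function.iterate_succ_apply', away (this i (by omega)) (ok0 n01 _)]; rfl
lemma T0 {y : Y} (h : y 0 = false) : T y = cs false y := by simp [T, h]
lemma evC (y : Y) : ∀ᶠ j in atTop, T^[j] y 0 = T^[j] y 1 := by
  by_cases h : ∀ k, y k = true
  · have e : T y = y := by funext k; simp [T, h]
    exact Eventually.of_forall fun j => by rw [Function.iterate_fixed e, h, h]
  · have key : ∀ k (y : Y), y k = false → ∃ j, T^[j] y 0 = false := by
      intro k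
      induction k with
      | zero => exact fun y hy => ⟨0, hy⟩
      | succ k ih =>
        intro y hy
        by_cases h0 : y 0 = false
        · exact ⟨0, h0⟩
        by_cases h1 : y 1 = false
        · exact ⟨1, by simp [T, h0, h1]⟩
        obtain ⟨j, hj⟩ := ih (T y) (by simp [T, h0, h1, hy])
        exact ⟨j + 1, hj⟩
    push Not at h
    obtain ⟨k, hk⟩ := h
    obtain ⟨j, hj⟩ := key k y (by simpa using hk)
    have : ∀ i, j ≤ i → T^[i] y 0 = false := by
      intro i hi
      induction i, hi using Nat.le_induction with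
      | base => exact hj
      | succ i _ ih => rw [Function.iterate_succ_apply', T0 ih]; rfl
    refine eventually_atTop.2 ⟨j + 1, fun i hi => ?_⟩
    obtain ⟨i, rfl⟩ : ∃ k, i = k + 1 := ⟨i - 1, by omega⟩
    rw [Function.iterate_succ_apply', T0 (this i (by omega))]
    simp [this i (by omega)]
lemma grow {q : E n} (h : (q 0).1 ≠ t) (h0 : (q 0).2 0 = false) (j : ℕ) :
    ((mv t)^[j] q 0).1 ≠ t ∧ (∀ m ≤ j, ((mv t)^[j] q 0).2 m = false) ∧
      ∀ i < j, ((mv t)^[j] q i).1 = iv t ∧ ∀ m, m + i ≤ j → ((mv t)^[j] q i).2 m = false := by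
  induction j with
  | zero => exact ⟨h, fun m hm => by simpa [Nat.le_zero.1 hm] using h0, by simp⟩
  | succ j ih =>
    obtain ⟨a, b, c⟩ := ih
    rw [Function.iterate_succ_apply', away a (ok0 n01 _)]
    have e : ∀ m ≤ j + 1, φ (n := n) t ((mv t)^[j] q 0).2 m = false := by
      intro m hm
      simp only [φ, if_true, T0 (b 0 (by omega))]
      cases m
      · rfl
      · exact b _ (by omega)
    refine ⟨ivne _, e, fun i hi => ?_⟩
    cases i with
    | zero => exact ⟨rfl, e⟩
    | succ i => exact ⟨(c i (by omega)).1, fun m hm => (c i (by omega)).2 m (by omega)⟩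
def qs : E n := fun _ => (iv t, fun _ => false)
lemma conv {q : E n} (h : q ∈ S n) :
    Tendsto (fun j => (mv t)^[j] (mv g ((mv t)^[j] q))) atTop (𝓝 qs) := by
  have key : ∀ᶠ j in atTop, ∀ i < j, ((mv t)^[j] (mv g ((mv t)^[j] q)) i).1 = iv t ∧
      ∀ m, m + i ≤ j → ((mv t)^[j] (mv g ((mv t)^[j] q)) i).2 m = false := by
    filter_upwards [evB q, evC (q 0).2] with j h1 h2
    rw [← (itS h j).2] at h2
    generalize (mv t)^[j] q = p at h1 h2
    have a : (p 0).1 ≠ g := by
      intro e; rw [e] at h1; exact n01 h1.symm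
    have b : ok (g : L n).1 (dd (p 0)) := fun _ => Or.inr (by simp [dd, h2])
    refine (grow ?_ ?_ j).2.2
    · rw [away a b]; intro e; exact n01 (congrArg Prod.fst e).symm
    · rw [away a b]
      simp only [cs0, φ, if_neg n01.symm, if_true, ψ, h2]
      cases (p 0).2 1 <;> simp
  refine tendsto_pi_nhds.2 fun i => Tendsto.prodMk_nhds ?_ (tendsto_pi_nhds.2 fun m => ?_)
  · refine tendsto_const_nhds.congr' ?_
    filter_upwards [key, eventually_gt_atTop i] with j h1 h2 using (h1 i h2).1.symm
  · refine tendsto_const_nhds.congr' ?_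
    filter_upwards [key, eventually_gt_atTop (m + i)] with j h1 h2
    exact ((h1 i (by omega)).2 m h2.le).symm
def O (n : ℕ) : Set (E n) := ⋂₀ {C | IsClosed C ∧ qs ∈ C ∧ ∀ l, MapsTo (mv l) C C}
lemma cO : IsClosed (O n) := isClosed_sInter fun _ h => h.1
lemma qsO : qs ∈ O n := fun _ h => h.2.1
lemma mvO (l : L n) {q : E n} (h : q ∈ O n) : mv l q ∈ O n := fun C hC => hC.2.2 l (h C hC)
lemma OS {q : E n} (h : q ∈ O n) : q ∈ S n := by
  refine h _ ⟨cS, fun k => ⟨(by simpa [qs] using ivne _), ?_, ok0 n01 _⟩, fun l q hq => mvS l hq⟩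
  funext m
  cases m <;> simp [qs, φ, T]
def R (n : ℕ) : Set Y := (fun q : E n => (q 0).2) '' O n
lemma Rt (b : Bool) {y : Y} (h : y ∈ R n) : φ (n := n) (0, b) y ∈ R n := by
  obtain ⟨q, hq, rfl⟩ := h
  exact ⟨_, mvO (0, b) hq, mvt (OS hq) b⟩
lemma Rg {y : Y} (h : y ∈ R n) (hy : ¬ (y 0 = false ∧ y 1 = true)) :
    ∃ q ∈ O n, (q 0).1.1 = 1 ∧ (q 0).2 = ψ y := by
  obtain ⟨q, hq, rfl⟩ := h
  obtain ⟨b, hb⟩ : ∃ b, (q 0).1 ≠ (1, b) := by
    refine ⟨!(q 0).1.2, fun e => ?_⟩
    simpa using congrArg Prod.snd e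
  refine ⟨_, mvO (1, b) hq, ?_⟩
  rw [away hb fun _ => Or.inr hy]
  simp [φ, n01.symm]
lemma Rall (y : Y) : y ∈ R n := by
  have dbl : ∀ y ∈ R n, cs (y 0) y ∈ R n := by
    intro y hy
    have := Rt (!y 0) hy
    cases h : y 0 <;> simpa [φ, T, Ti, h] using this
  have a01 : ∀ y ∈ R n, cs false (cs true y) ∈ R n := by
    intro y hy
    obtain ⟨q, hq, -, e⟩ := Rg (dbl y hy) (by simp)
    refine ⟨q, hq, e.trans ?_⟩
    cases h : y 0
    · simp [ψ, h]
    · simp [ψ, h]
  have a10 : ∀ y ∈ R n, cs true (cs false y) ∈ R n := by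
    intro y hy
    simpa [φ, Ti] using Rt false (a01 y hy)
  have fin : ∀ N (y : Y), (∀ i, N ≤ i → y i = false) → y ∈ R n := by
    intro N
    induction N with
    | zero => exact fun y hy => ⟨qs, qsO, funext fun i => (hy i (by omega)).symm⟩
    | succ N ih =>
      intro y hy
      obtain ⟨a, b, v, rfl⟩ := two y
      have h1 : cs b v ∈ R n := ih _ fun i hi => hy (i + 1) (by omega)
      have h2 : v ∈ R n := ih _ fun i hi => hy (i + 2) (by omega)
      cases a <;> cases b
      exacts [dbl _ h1, a01 _ h2, a10 _ h2, dbl _ h1]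
  have cl : IsClosed (R n) := (cO.isCompact.image (by fun_prop)).isClosed
  refine cl.mem_of_tendsto (b := atTop) (f := fun N i => if i < N then y i else false) ?_
    (Eventually.of_forall fun N => fin N _ fun i hi => if_neg (by omega))
  refine tendsto_pi_nhds.2 fun i => tendsto_const_nhds.congr' ?_
  filter_upwards [eventually_gt_atTop i] with N h using (if_pos h).symm
lemma pre (l : L n) (y : Y) : ∃ y', φ l y' = y ∧ ∀ c, ok l.1 (dd (c, y')) := by
  by_cases h0 : l.1 = 0
  · refine ⟨φ (iv l) y, ?_, fun c => ok0 (h0 ▸ n01) _⟩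
    cases h : l.2 <;> simp [φ, iv, h0, h, TTi, TiT]
  by_cases h1 : l.1 = 1
  · exact ⟨cs true (cs false y), by simp [φ, h1, n01.symm, ψ], fun c _ => Or.inr (by simp [dd])⟩
  · exact ⟨y, by simp [φ, h0, h1], fun c => ok0 h1 _⟩
lemma stp {l : L n} {y : Y} {q : E n} (h : (q 0).1 ≠ l) (e : (q 0).2 = (pre l y).choose) :
    mv l q 0 = (iv l, y) := by
  have := (pre l y).choose_spec
  rw [← e] at this
  rw [away h (this.2 _), this.1]; rfl
lemma P1 (c : L n) (hc : c.1 ≠ 1) (y : Y) : ∃ q ∈ O n, q 0 = (iv c, y) := by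
  obtain ⟨q, hq, a, b⟩ := Rg (Rall (n := n) (cs true (cs false (pre c y).choose))) (by simp)
  exact ⟨_, mvO c hq, stp (fun e => hc (e ▸ a)) (by simpa [ψ] using b)⟩
lemma P2 (c : L n) (y : Y) : ∃ q ∈ O n, q 0 = (iv c, y) := by
  by_cases hc : c.1 = 1
  · obtain ⟨q, hq, a⟩ := P1 (t : L n) n01 (pre c y).choose
    refine ⟨_, mvO c hq, stp ?_ (by rw [a])⟩
    rw [a]; intro e; exact n01 ((congrArg Prod.fst e).trans hc)
  · exact P1 c hc y
lemma word (c : L n) (W : List (L n)) (h : FreeGroup.IsReduced (W ++ [c])) (y : Y) :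
    ∃ q ∈ O n, (q 0).1 = iv c ∧ W.foldr mv q 0 = (iv (W.headD c), y) := by
  induction W generalizing y with
  | nil => obtain ⟨q, hq, e⟩ := P2 c y; exact ⟨q, hq, by rw [e], e⟩
  | cons l W ih =>
    have h' : FreeGroup.IsReduced (W ++ [c]) := List.IsChain.tail h
    obtain ⟨q, hq, a, b⟩ := ih h' (pre l y).choose
    refine ⟨q, hq, a, stp ?_ (by rw [b])⟩
    rw [b]
    have : l.1 = (W.headD c).1 → l.2 = (W.headD c).2 := by
      cases W <;> exact (List.isChain_cons_cons.1 h).1
    intro e
    have e2 := this (by rw [← e]; rfl)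
    rw [← e] at e2
    simp [iv] at e2

def pm (i : Fin (n + 2)) : Equiv.Perm (O n) where
  toFun q := ⟨mv (i, true) q, mvO _ q.2⟩
  invFun q := ⟨mv (i, false) q, mvO _ q.2⟩
  left_inv q := Subtype.ext (mvmv (i, true) (OS q.2))
  right_inv q := Subtype.ext (mvmv (i, false) (OS q.2))
abbrev G (n : ℕ) := FreeGroup (Fin (n + 2))
instance act : MulAction (G n) (O n) := MulAction.compHom _ (FreeGroup.lift pm)
lemma smk (W : List (L n)) (q : O n) : ((FreeGroup.mk W • q : O n) : E n) = W.foldr mv q := by
  induction W with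
  | nil => rfl
  | cons l W ih =>
    rw [List.foldr_cons, ← ih]
    obtain ⟨i, b⟩ := l
    cases b <;> rfl
lemma rep (l : L n) (j : ℕ) (W : List (L n)) (q : E n) :
    (List.replicate j l ++ W).foldr mv q = (mv l)^[j] (W.foldr mv q) := by
  induction j with
  | zero => rfl
  | succ j ih => rw [Function.iterate_succ_apply', ← ih]; rfl
instance : ContinuousConstSMul (G n) (O n) := ⟨fun x => by
  refine continuous_induced_rng.2 ?_
  have : ∀ W : List (L n), Continuous fun q : E n => W.foldr mv q := by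
    intro W
    induction W with
    | nil => exact continuous_id
    | cons l W ih => exact (cmv l).comp ih
  refine ((this x.toWord).comp continuous_subtype_val).congr fun q => ?_
  simp only [Function.comp, ← smk, FreeGroup.mk_toWord]⟩
def w (j : ℕ) : G n := FreeGroup.mk (List.replicate j t ++ g :: (List.replicate j t ++ []))
lemma conv' (q : O n) : Tendsto (fun j => (w j : G n) • q) atTop (𝓝 ⟨qs, qsO⟩) := by
  refine tendsto_subtype_rng.2 ((conv (OS q.2)).congr fun j => ?_)
  rw [w, smk, rep, List.foldr_cons, rep]; rfl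

/-- For every rank `n + 2 ≥ 2` there is a faithful, minimal, strongly proximal action of the free
group on a compact Hausdorff space which is not topologically free. -/
theorem result (n : ℕ) : ∃ (X : Type) (_ : TopologicalSpace X) (_ : CompactSpace X)
    (_ : T2Space X) (_ : Nonempty X) (_ : MeasurableSpace X) (_ : BorelSpace X)
    (_ : MulAction (FreeGroup (Fin (n + 2))) X)
    (_ : ContinuousConstSMul (FreeGroup (Fin (n + 2))) X),
    (∀ γ : FreeGroup (Fin (n + 2)), (∀ x : X, γ • x = x) → γ = 1) ∧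
    (∀ x : X, Dense (MulAction.orbit (FreeGroup (Fin (n + 2))) x)) ∧
    (∀ μ : ProbabilityMeasure X, ∃ x : X, diracProba x ∈ closure
      {ν | ∃ γ : FreeGroup (Fin (n + 2)),
        ν = μ.map (continuous_const_smul γ).measurable.aemeasurable}) ∧
    ¬ Dense {x : X | MulAction.stabilizer (FreeGroup (Fin (n + 2))) x = ⊥} := by
  haveI : CompactSpace (O n) := isCompact_iff_compactSpace.1 cO.isCompact
  borelize ↥(O n)
  refine ⟨↥(O n), inferInstance, inferInstance, inferInstance, ⟨⟨qs, qsO⟩⟩, inferInstance,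
    inferInstance, act, inferInstance, fun γ h => ?_, fun x => ?_, fun μ => ⟨⟨qs, qsO⟩, ?_⟩, ?_⟩
  · by_contra hne
    have hW : γ.toWord ≠ [] := fun e => hne (FreeGroup.toWord_eq_nil_iff.1 e)
    obtain ⟨c, c1, c2⟩ : ∃ c : L n, c ≠ γ.toWord.head hW ∧ c ≠ iv (γ.toWord.getLast hW) := by
      by_contra hc
      push Not at hc
      have a : (t : L n) ≠ iv t := (ivne _).symm
      have b : (t : L n) ≠ g := fun e => n01 (congrArg Prod.fst e)
      have d : (iv t : L n) ≠ g := fun e => n01 (congrArg Prod.fst e)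
      have := hc t; have := hc (iv t); have := hc g
      grind
    have hr : FreeGroup.IsReduced (γ.toWord ++ [c]) := by
      refine List.IsChain.append FreeGroup.isReduced_toWord (List.isChain_singleton _) ?_
      intro a ha b hb e
      rw [List.getLast?_eq_some_getLast hW] at ha
      obtain rfl : _ = a := by simpa using ha
      obtain rfl : c = b := by simpa using hb
      by_contra e2
      exact c2 (Prod.ext e.symm (Bool.eq_not_iff.2 fun e3 => e2 e3.symm))
    obtain ⟨q, hq, a, b⟩ := word c _ hr fun _ => false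
    have e := smk γ.toWord ⟨q, hq⟩
    rw [FreeGroup.mk_toWord, h] at e
    rw [← e] at b
    have := congrArg iv (a.symm.trans (congrArg Prod.fst b))
    simp only [iviv] at this
    apply c1
    rw [this, List.headD_eq_head?_getD, List.head?_eq_some_head hW]; rfl
  · intro p
    have : p.1 ∈ Subtype.val '' closure (MulAction.orbit (G n) x) := by
      refine p.2 _ ⟨cO.isClosedEmbedding_subtypeVal.isClosedMap _ isClosed_closure,
        ⟨⟨qs, qsO⟩, mem_closure_of_tendsto (conv' x)
          (Eventually.of_forall fun j => MulAction.mem_orbit _ _), rfl⟩, ?_⟩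
      rintro l _ ⟨y, hy, rfl⟩
      exact ⟨(FreeGroup.mk [l] : G n) • y, smul_closure_orbit_subset _ x ⟨y, hy, rfl⟩, smk _ _⟩
    obtain ⟨y, hy, e⟩ := this
    exact Subtype.ext e ▸ hy
  · refine mem_closure_of_tendsto (b := atTop) (f := fun j =>
      μ.map (continuous_const_smul (w j : G n)).measurable.aemeasurable) ?_
      (Eventually.of_forall fun j => ⟨_, rfl⟩)
    refine ProbabilityMeasure.tendsto_iff_forall_integral_tendsto.2 fun f => ?_
    have := tendsto_integral_filter_of_norm_le_const (μ := (μ : Measure (O n))) (l := atTop)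
      (F := fun j q => f ((w j : G n) • q)) (f := fun _ => f ⟨qs, qsO⟩)
      (Eventually.of_forall fun j =>
        (f.continuous.comp (continuous_const_smul _)).aestronglyMeasurable)
      ⟨‖f‖, Eventually.of_forall fun j => ae_of_all _ fun q => f.norm_coe_le_norm _⟩
      (ae_of_all _ fun q => (f.continuous.tendsto _).comp (conv' q))
    simp only [integral_const, probReal_univ, one_smul] at this
    simp only [diracProba, ProbabilityMeasure.coe_mk, integral_dirac,
      ProbabilityMeasure.toMeasure_map]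
    refine this.congr fun j => ?_
    rw [integral_map (continuous_const_smul _).measurable.aemeasurable
      f.continuous.aestronglyMeasurable]
  · intro hd
    obtain ⟨q, hq, e⟩ := P2 (t : L n) (cs false (cs true fun _ => false))
    have ho : IsOpen {p : O n | dd (p.1 0) = (iv t, false, true)} :=
      (isOpen_discrete {(iv t, false, true)}).preimage (f := fun p : O n => dd (p.1 0))
        (cdd.comp ((continuous_apply 0).comp continuous_subtype_val))
    obtain ⟨p, h1, h2⟩ := hd.inter_open_nonempty _ ho ⟨⟨q, hq⟩, by simp [e, dd]⟩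
    have h3 : (FreeGroup.mk [g] : G n) ∈ MulAction.stabilizer (G n) p := by
      refine Subtype.ext ((smk _ _).trans ?_)
      have h4 : dd (p.1 0) = (iv t, false, true) := h1
      have h5 : (p.1 0).1 = iv t := congrArg Prod.fst h4
      have h6 : (iv t : L n) ≠ g := fun e => n01 (congrArg Prod.fst e)
      simp [mv, h4, h5, h6, ok]
    rw [show MulAction.stabilizer (G n) p = ⊥ from h2] at h3
    exact FreeGroup.of_ne_one (1 : Fin (n + 2)) h3

end Pool.Agent.Results.MP_0c6837_al.NotFree
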